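import Pool.Agent.Run7.h462.LW.Stm
import Pool.Agent.Run7.h824.KT.UPK
import Pool.Agent.N792.Rav

/-!
# Project LW (helper462), piece UPW: pointwise upper bound for patterns in a short interval
-/

set_option autoImplicit false

namespace Run7.h646.LW

open Finset Filter Topology Polynomial
open Pool.Agent.H373R2.T7 (pz Vz mem_pz Vz_pos)
open Pool.Agent.TH204.WR (rho flp prod_nonneg')
open Run7.h462.KT (Q rk gk inj eval_Q natDegree_Q_le dvd_Q Vz_gk gk_nonneg mem_inj)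
open Run7.h462.LW

theorem Vz_le_log (z : ℕ) (hz : 2 ≤ z) : Vz z ≤ 1 / Real.log z := Pool.Agent.N792.V1_le z hz

/-- the counted integers have no small prime factor in the product -/
theorem cnt_le_sift {k : ℕ} (x : ℤ) (Y H z : ℕ) (T : Finset ℤ) (h : Fin k → ℕ)
    (hT : ∀ t ∈ T, ∀ p ∈ pz z, ¬ (p : ℤ) ∣ t) :
    cnt x Y H T h ≤ #((Icc 1 (Y + H)).filter (fun s : ℕ =>
      ∀ p ∈ pz z, ¬ (p : ℤ) ∣ (Q (X : ℤ[X]) h).eval ((x - H) + (s : ℤ)) + 0)) := by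
  classical
  unfold cnt
  refine le_trans (card_le_card (t := ((Icc 1 (Y + H)).filter (fun s : ℕ =>
      ∀ p ∈ pz z, ¬ (p : ℤ) ∣ (Q (X : ℤ[X]) h).eval ((x - H) + (s : ℤ)) + 0)).image
      (fun s : ℕ => (x - H) + (s : ℤ))) ?_) card_image_le
  intro y hy
  rw [mem_filter, mem_Ioc] at hy
  obtain ⟨⟨hy1, hy2⟩, hy3⟩ := hy
  rw [mem_image]
  refine ⟨(y - (x - H)).toNat, ?_, ?_⟩
  · rw [mem_filter, mem_Icc]
    have e : (((y - (x - H)).toNat : ℕ) : ℤ) = y - (x - H) := Int.toNat_of_nonneg (by omega)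
    refine ⟨⟨by omega, by omega⟩, ?_⟩
    intro p hp hdv
    have hp' := mem_pz.1 hp
    obtain ⟨i, hi⟩ := (dvd_Q (X : ℤ[X]) h hp'.2 _).1 hdv
    rw [eval_X, e] at hi
    have e2 : x - (H : ℤ) + (y - (x - H)) + (h i : ℤ) = y + h i := by ring
    rw [e2] at hi
    exact hT _ (hy3 i) p hp hi
  · have e : (((y - (x - H)).toNat : ℕ) : ℤ) = y - (x - H) := Int.toNat_of_nonneg (by omega)
    rw [e]; ring

/-- if all residues are excluded, nothing is counted -/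
theorem cnt_zero {k : ℕ} (x : ℤ) (Y H z : ℕ) (T : Finset ℤ) (h : Fin k → ℕ)
    (hT : ∀ t ∈ T, ∀ p ∈ pz z, ¬ (p : ℤ) ∣ t) (p : ℕ) (hp : p ∈ pz z)
    (hr : p ≤ rho (Q (X : ℤ[X]) h) 0 p) : cnt x Y H T h = 0 := by
  unfold cnt
  rw [card_eq_zero, filter_eq_empty_iff]
  intro y _ hy
  have hp' := mem_pz.1 hp
  have h6 := Run7.h824.KT.dvd_of_rho (Q (X : ℤ[X]) h) p hp'.2.pos hr y
  rw [← add_zero ((Q (X : ℤ[X]) h).eval _)] at h6
  obtain ⟨i, hi⟩ := (dvd_Q (X : ℤ[X]) h hp'.2 _).1 h6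
  rw [eval_X] at hi
  exact hT _ (hy i) p hp hi

theorem upw_zero : S_UPW 0 := by
  intro κ hκ
  refine ⟨2, by norm_num, 1, ?_⟩
  intro Y hY x T hT hR H hH h hh
  have h1 : cnt x Y H T h ≤ Y + H := by
    unfold cnt
    refine (card_filter_le _ _).trans ?_
    rw [Int.card_Ioc]
    omega
  have h2 : (cnt x Y H T h : ℝ) ≤ Y + H := by exact_mod_cast h1
  have h3 : (H : ℝ) ≤ Y := by exact_mod_cast hH
  have h4 : gk (X : ℤ[X]) h ⌊Real.log Y ^ 2⌋₊ = 1 := by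
    have hQ : Q (X : ℤ[X]) h = 1 := by unfold Q; simp
    unfold gk
    rw [pow_zero, div_one]
    refine prod_eq_one fun p hp => ?_
    have hp' := (mem_pz.1 hp).2
    have h5 : rk (X : ℤ[X]) h p = 0 := by
      unfold rk rho
      rw [hQ, card_eq_zero, filter_eq_empty_iff]
      intro b _ hb
      rw [eval_one, add_zero] at hb
      have := Int.eq_one_of_dvd_one (by positivity) hb
      have h6 := hp'.one_lt
      omega
    rw [h5]; simp
  rw [h4, pow_zero, div_one, mul_one]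
  linarith

theorem t_UPW (k : ℕ) (hC : S_CUT k) : S_UPW k := by
  classical
  rcases Nat.eq_zero_or_pos k with hk0 | hk
  · subst hk0; exact upw_zero
  intro κ hκ
  obtain ⟨C1, y0, hC1, hy0, Hf⟩ := flp k hk
  have hC1r : (1 : ℝ) ≤ C1 := by exact_mod_cast hC1
  have hk1 : (1 : ℝ) ≤ k := by exact_mod_cast hk
  -- the exponent
  obtain ⟨κ', hκ'⟩ : ∃ κ' : ℝ, κ' = min κ (1 / ((C1 : ℝ) * C1)) := ⟨_, rfl⟩
  have hκ0 : 0 < κ' := by rw [hκ']; exact lt_min hκ (by positivity)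
  have hκ1 : κ' ≤ κ := by rw [hκ']; exact min_le_left _ _
  have hκ2 : κ' * ((C1 * C1 : ℕ) : ℝ) ≤ 1 := by
    have : κ' ≤ 1 / ((C1 : ℝ) * C1) := by rw [hκ']; exact min_le_right _ _
    push_cast
    rwa [le_div_iff₀ (by positivity)] at this
  have hlimr : Tendsto (fun Y : ℕ => (Y : ℝ) ^ (κ' / 2)) atTop atTop :=
    (tendsto_rpow_atTop (by positivity)).comp (tendsto_natCast_atTop_atTop (R := ℝ))
  have hliml : Tendsto (fun Y : ℕ => Real.log (Y : ℝ)) atTop atTop :=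
    Real.tendsto_log_atTop.comp (tendsto_natCast_atTop_atTop (R := ℝ))
  obtain ⟨Y₀, hY₀⟩ := eventually_atTop.1 ((hlimr.eventually_ge_atTop
    (max ((y0 : ℝ) + 2) ((4 / κ') ^ 2 + 1))).and ((hliml.eventually_ge_atTop
      (max (4 * (k : ℝ) + 1) (36 * (k : ℝ) ^ 3))).and (eventually_ge_atTop 2)))
  refine ⟨max 1 (4 * (2 * (2 / κ') ^ k)), le_max_left _ _, Y₀, ?_⟩
  intro Y hY x T hT hR H hH h hh
  obtain ⟨hr, hL, hY2⟩ := hY₀ Y hY
  have hYr : (2 : ℝ) ≤ Y := by exact_mod_cast hY2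
  have hY1 : (1 : ℝ) ≤ Y := by linarith
  have hYp : (0 : ℝ) < Y := by linarith
  set L : ℝ := Real.log Y with hLdef
  have hL1 : 4 * (k : ℝ) + 1 ≤ L := (le_max_left _ _).trans hL
  have hL2 : 36 * (k : ℝ) ^ 3 ≤ L := (le_max_right _ _).trans hL
  have hL5 : 5 ≤ L := by linarith
  have hL0 : 0 < L := by linarith
  set r : ℝ := (Y : ℝ) ^ (κ' / 2) with hrdef
  have hr1 : (y0 : ℝ) + 2 ≤ r := (le_max_left _ _).trans hr
  have hr2 : (4 / κ') ^ 2 + 1 ≤ r := (le_max_right _ _).trans hr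
  have hy0r : (0 : ℝ) ≤ y0 := Nat.cast_nonneg _
  have hrr : r * r = (Y : ℝ) ^ κ' := by
    rw [hrdef, ← Real.rpow_add hYp]
    congr 1
    ring
  set z : ℕ := ⌊r * r⌋₊ with hz
  have hz1 : (z : ℝ) ≤ r * r := Nat.floor_le (by positivity)
  have hz2 : r * r - 1 < z := Nat.sub_one_lt_floor _
  have hrz : r ≤ z := by nlinarith
  have hzy : y0 ≤ z := by
    have : (y0 : ℝ) ≤ z := by linarith
    exact_mod_cast this
  have hz22 : 2 ≤ z := by omega
  have hT' : ∀ t ∈ T, ∀ p ∈ pz z, ¬ (p : ℤ) ∣ t := by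
    intro t ht p hp
    have hp' := mem_pz.1 hp
    refine hR t ht p hp'.2 ?_
    have h1 : (p : ℝ) ≤ z := by exact_mod_cast hp'.1
    calc (p : ℝ) ≤ z := h1
      _ ≤ (Y : ℝ) ^ κ' := by rw [← hrr]; exact hz1
      _ ≤ (Y : ℝ) ^ κ := Real.rpow_le_rpow_of_exponent_le hY1 hκ1
  set y : ℕ := ⌊L ^ 2⌋₊ with hydef
  have hg0 : 0 ≤ gk (X : ℤ[X]) h y := gk_nonneg _ _ _
  have hRHS : 0 ≤ max 1 (4 * (2 * (2 / κ') ^ k)) * (Y / L ^ k) * gk (X : ℤ[X]) h y := by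
    have : 0 ≤ max 1 (4 * (2 * (2 / κ') ^ k)) := le_trans zero_le_one (le_max_left _ _)
    positivity
  by_cases hrho : ∀ p ∈ pz z, rho (Q (X : ℤ[X]) h) 0 p < p
  · -- the sieve
    have hzc : z ^ (C1 * C1) ≤ Y + H := by
      have h1 : (z : ℝ) ^ (C1 * C1) ≤ Y := by
        calc (z : ℝ) ^ (C1 * C1) ≤ ((Y : ℝ) ^ κ') ^ (C1 * C1) := by
              gcongr
              rw [← hrr]; exact hz1
          _ = (Y : ℝ) ^ (κ' * ((C1 * C1 : ℕ) : ℝ)) := by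
              rw [← Real.rpow_natCast, ← Real.rpow_mul hYp.le]
          _ ≤ (Y : ℝ) ^ (1 : ℝ) := Real.rpow_le_rpow_of_exponent_le hY1 hκ2
          _ = Y := Real.rpow_one _
      have h2 : z ^ (C1 * C1) ≤ Y := by exact_mod_cast h1
      omega
    have hdeg : (Q (X : ℤ[X]) h).natDegree ≤ k := by
      have := natDegree_Q_le (X : ℤ[X]) h
      rwa [natDegree_X, mul_one] at this
    have hsv := Hf (Q (X : ℤ[X]) h) 0 hdeg C1 le_rfl z hzy hrho (Y + H) hzc (x - H)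
    have h4 := (abs_le.1 hsv).2
    have h5 : (1 / 2 : ℝ) ^ C1 ≤ 1 / 2 := by
      calc (1 / 2 : ℝ) ^ C1 ≤ (1 / 2 : ℝ) ^ 1 :=
            pow_le_pow_of_le_one (by norm_num) (by norm_num) hC1
        _ = 1 / 2 := pow_one _
    have hprod := prod_nonneg' (Q (X : ℤ[X]) h) 0 z
    have hVhh : Vz z ^ k * gk (X : ℤ[X]) h z =
      ∏ p ∈ pz z, (1 - (rho (Q (X : ℤ[X]) h) 0 p : ℝ) / p) := Vz_gk (X : ℤ[X]) h z
    set V := ∏ p ∈ pz z, (1 - (rho (Q (X : ℤ[X]) h) 0 p : ℝ) / p) with hV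
    have hN2 : ((Y + H : ℕ) : ℝ) ≤ 2 * Y := by
      have : (H : ℝ) ≤ Y := by exact_mod_cast hH
      push_cast
      linarith
    have hNV : 0 ≤ ((Y + H : ℕ) : ℝ) * V := mul_nonneg (Nat.cast_nonneg _) hprod
    have h6 : 2 * (1 / 2 : ℝ) ^ C1 * (((Y + H : ℕ) : ℝ) * V) ≤ 1 * (((Y + H : ℕ) : ℝ) * V) := by
      refine mul_le_mul_of_nonneg_right ?_ hNV
      linarith
    have hcount : (cnt x Y H T h : ℝ) ≤ (#((Icc 1 (Y + H)).filter (fun s : ℕ =>
        ∀ p ∈ pz z, ¬ (p : ℤ) ∣ (Q (X : ℤ[X]) h).eval ((x - H) + (s : ℤ)) + 0)) : ℝ) := by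
      exact_mod_cast cnt_le_sift x Y H z T h hT'
    have h7 : (cnt x Y H T h : ℝ) ≤ 4 * Y * V := by
      have h8 : ((Y + H : ℕ) : ℝ) * V ≤ 2 * Y * V := mul_le_mul_of_nonneg_right hN2 hprod
      linarith
    -- `Vz z ≤ 2 / (κ' L)`
    have hlogz : κ' / 2 * L ≤ Real.log z := by
      have h9 : Real.log r = κ' / 2 * L := by rw [hrdef, Real.log_rpow hYp]
      rw [← h9]
      exact Real.log_le_log (by linarith) hrz
    have hVz : Vz z ≤ 2 / κ' / L := by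
      refine (Vz_le_log z hz22).trans ?_
      rw [div_div, div_le_div_iff₀ (lt_of_lt_of_le (by positivity) hlogz) (by positivity)]
      nlinarith
    have hVzk : Vz z ^ k ≤ (2 / κ') ^ k / L ^ k := by
      rw [← div_pow]
      exact pow_le_pow_left₀ (Vz_pos z).le hVz k
    -- the cut
    have hy1 : (y : ℝ) ≤ L ^ 2 := Nat.floor_le (by positivity)
    have hy2 : L ^ 2 - 1 < y := Nat.sub_one_lt_floor _
    have hy3 : L ^ 2 / 2 ≤ y := by nlinarith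
    have hy4 : 4 * k ≤ y := by
      have : (4 * k : ℝ) ≤ y := by nlinarith
      exact_mod_cast this
    have hyz : y ≤ z := by
      have h10 : L ≤ (Y : ℝ) ^ (κ' / 4) / (κ' / 4) := Real.log_le_rpow_div hYp.le (by positivity)
      have h11 : L ^ 2 ≤ (4 / κ') ^ 2 * r := by
        calc L ^ 2 ≤ ((Y : ℝ) ^ (κ' / 4) / (κ' / 4)) ^ 2 := pow_le_pow_left₀ hL0.le h10 2
          _ = (4 / κ') ^ 2 * ((Y : ℝ) ^ (κ' / 4) * (Y : ℝ) ^ (κ' / 4)) := by
              field_simp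
          _ = (4 / κ') ^ 2 * r := by
              rw [← Real.rpow_add hYp, hrdef]
              congr 2
              ring
      have h12 : (4 / κ') ^ 2 * r ≤ r * r - 1 := by nlinarith
      have : (y : ℝ) ≤ z := by linarith
      exact_mod_cast this
    have hlogH : Real.log ((H + 1 : ℕ) : ℝ) ≤ 2 * L := by
      have h13 : ((H + 1 : ℕ) : ℝ) ≤ (Y : ℝ) ^ 2 := by
        have : (H : ℝ) ≤ Y := by exact_mod_cast hH
        push_cast
        nlinarith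
      calc Real.log ((H + 1 : ℕ) : ℝ) ≤ Real.log ((Y : ℝ) ^ 2) :=
            Real.log_le_log (by positivity) h13
        _ = 2 * L := by rw [Real.log_pow, hLdef]; norm_num
    have hy0' : (0 : ℝ) < y := lt_of_lt_of_le (by positivity) hy3
    have hcond : 2 * ((k : ℝ) ^ 2 / y + 4 * (k : ℝ) ^ 3 * Real.log ((H + 1 : ℕ) : ℝ) / y) ≤ 1 := by
      rw [← add_div, mul_div_assoc', div_le_one hy0']
      have e1 : (k : ℝ) ^ 2 ≤ (k : ℝ) ^ 3 * L := by
        have : (k : ℝ) ^ 2 ≤ (k : ℝ) ^ 3 := pow_le_pow_right₀ hk1 (by norm_num)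
        have h14 : (0 : ℝ) ≤ (k : ℝ) ^ 3 := by positivity
        nlinarith
      have e2 : 4 * (k : ℝ) ^ 3 * Real.log ((H + 1 : ℕ) : ℝ) ≤ 4 * (k : ℝ) ^ 3 * (2 * L) := by
        gcongr
      have e3 : 36 * (k : ℝ) ^ 3 * L ≤ L * L := mul_le_mul_of_nonneg_right hL2 hL0.le
      nlinarith
    have hcut := hC 1 one_pos le_rfl H y z hy4 (by omega) hyz hcond h hh
    have hg2 : gk (X : ℤ[X]) h z ≤ 2 * gk (X : ℤ[X]) h y := by
      have := (abs_le.1 hcut).2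
      linarith
    calc (cnt x Y H T h : ℝ) ≤ 4 * Y * V := h7
      _ = 4 * Y * (Vz z ^ k * gk (X : ℤ[X]) h z) := by rw [hVhh]
      _ ≤ 4 * Y * ((2 / κ') ^ k / L ^ k * (2 * gk (X : ℤ[X]) h y)) := by
          have hgz : 0 ≤ gk (X : ℤ[X]) h z := gk_nonneg _ _ _
          gcongr
      _ = 4 * (2 * (2 / κ') ^ k) * (Y / L ^ k) * gk (X : ℤ[X]) h y := by ring
      _ ≤ max 1 (4 * (2 * (2 / κ') ^ k)) * (Y / L ^ k) * gk (X : ℤ[X]) h y := by
          gcongr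
          exact le_max_right _ _
  · push Not at hrho
    obtain ⟨p, hp, hrp⟩ := hrho
    rw [cnt_zero x Y H z T h hT' p hp hrp]
    simpa using hRHS

end Run7.h646.LW
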